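import Pool.Agent.QT.UPA
import Pool.Agent.QT.LOW
import Pool.Agent.QT.FIFOM

/-! MP_822e06_lc, Q1: the nondeterministic on-line time needed for one work tape to simulate one
queue is of order `n ^ (3/2)`.

First part (upper bound): every queue machine accepting in linear time is simulated by a
nondeterministic one-tape machine in time `O(n ^ (3/2))`.  Second part (lower bound): for some
deterministic real-time queue machine, every nondeterministic one-tape machine accepting the same
language needs time at least `c * n ^ (3/2)` on some accepted word of every large length `n`. -/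

namespace Pool.Agent.Results.MP_822e06_lc.QueueByTape

open Pool.Agent.QT Filter

theorem result :
    (∀ (A : Type) [Finite A] (M : QueueMachine A) (k : ℕ), M.LinearTime k →
      ∃ (N : TapeMachine A) (C : ℝ), (∀ w, N.Accepts w ↔ M.Accepts w) ∧
        ∀ w, M.Accepts w →
          ∃ t, N.AcceptsIn w t ∧ (t : ℝ) ≤ C * ((w.length : ℝ) + 1) ^ (3 / 2 : ℝ)) ∧
    ∃ (A : Type) (_ : Finite A) (M : QueueMachine A), M.StrictRealTime ∧
      ∀ N : TapeMachine A, (∀ w, N.Accepts w ↔ M.Accepts w) →
        ∃ c : ℝ, 0 < c ∧ ∀ᶠ n : ℕ in atTop, ∃ w : List A, w.length = n ∧ M.Accepts w ∧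
          ∀ t, N.AcceptsIn w t → c * (n : ℝ) ^ (3 / 2 : ℝ) ≤ t := by
  refine ⟨fun A _ M k hM => upper_bound M k hM, ?_⟩
  obtain ⟨M, hM, hL⟩ := exists_fifo_machine
  refine ⟨QSym, inferInstance, M, hM, fun N hN => ?_⟩
  obtain ⟨c, hc, h⟩ := lower_bound N (fun w => (hN w).trans (hL w))
  refine ⟨c, hc, h.mono fun n hn => ?_⟩
  obtain ⟨w, h1, h2, h3⟩ := hn
  exact ⟨w, h1, (hL w).2 h2, h3⟩

end Pool.Agent.Results.MP_822e06_lc.QueueByTape
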